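import Pool.Agent.R643.UGc
import Pool.Agent.R643.UGe

/-!
# Approximate all-pairs shortest paths in undirected bipartite graphs without weights

The APSP hypothesis says that `N ^ (3 - o (1))` steps are necessary to find all distances of a
weighted directed graph with `N` vertices. The starting results `SpaceBoundedAPSP`, `StackTradeoff`
and `TreewidthTimesReads` of this problem prove this in restricted models, for algorithms that find
the EXACT distances of all DIRECTED graphs (with weights one). Here the same lower bounds are proved
for algorithms which

* have to work only for simple UNDIRECTED BIPARTITE graphs without weights (`Simple`), and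
* may output APPROXIMATE distances (`Near`): the output for each pair of vertices must not be smaller
  than the distance `d`, and must be at most `d + 1` or smaller than `5 d / 3`.

The bound on the approximation is a natural one: with an additive error `2` truly subcubic
combinatorial algorithms exist (Aingworth, Chekuri, Indyk, Motwani; Dor, Halperin, Zwick), and an
additive error `2` at distance `3` gives the output `5 = (5 / 3) 3`. For exact distances in undirected
graphs without weights Seidel's algorithm uses fast matrix multiplication; the models here contain
it, so a bound on the memory (or the treewidth) is necessary.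

Two models:

1. Random circuits (`Net`) with `2 ^ b` possible words, whose gates compute ARBITRARY functions of
   any number of words; only the number `r` of the wires from entries of the matrix to gates and the
   treewidth `t` of the graph of the gates count:
   `N ^ 4 < c (r + N ^ 2) (b (t + 1) + log N) (log N) ^ 10`.
2. Random programs with a memory of `S` bits (at most `2 ^ S` nodes) and in addition an unlimited
   stack; only the number `T` of reads of entries and writes of outputs counts:
   `N ^ 4 < c T S (log N) ^ 10`.

So circuits of treewidth `N ^ (1 + o (1))` with words of `N ^ o (1)` bits, and programs with memory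
`N ^ (1 + o (1))`, need `N ^ (3 - o (1))` reads.

Proof. The hard directed graphs of the starting results have four layers (sources, two middle
layers, sinks), and all edges go from one layer to the next. We forget the directions of the edges.
A walk from a source to a sink has odd length, and if its length is `3` it is a directed path. So the
distance of a source and a sink is `3` if there is a directed path, and at least `5` if there is none
(`R643.UG.dist_le`, `R643.UG.five_le`), and an approximate distance tells the two cases apart
(`R643.UG.near_iff`). With this the counting arguments of the starting results go through.
-/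

set_option autoImplicit false

namespace Pool.Agent.Results.MP_885423_lc.ApproximateUndirected

open Pool.Agent.R643.UG
open Pool.Agent.Y631.Tr (Net)
open Pool.Agent.W896.MO (Prog)

/-- (1) There is a constant `c` such that for all large `N`, all `t`, `b` and `r`: let `C i`, for a
uniformly random `i : R`, be circuits with at most `2 ^ b` possible words, with at most `r` reads and
of treewidth at most `t`. If for every simple undirected bipartite graph with `N` vertices (weights
`1`, and `⊤` if there is no edge) the random circuit computes approximate distances (`Near`) with
probability more than `1/2`, then `N ^ 4 < c (r + N ^ 2) (b (t + 1) + log₂ N) (log₂ N) ^ 10`.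

(2) There is a constant `c` such that for all large `N`, all `S` and `T`: if `P r`, for a uniformly
random `r : R`, is a program with a stack and with at most `2 ^ S` nodes, and for every simple
undirected bipartite graph with `N` vertices the program `P r` outputs approximate distances with at
most `T` reads and writes with probability more than `1/2`, then
`N ^ 4 < c T S (log₂ N) ^ 10`. -/
theorem result :
    (∃ c : ℕ, ∀ᶠ N : ℕ in Filter.atTop, ∀ (t b r : ℕ)
      (R : Type) [Fintype R] (α : R → Type) [∀ i, Fintype (α i)]
      (C : (i : R) → Net (Fin N × Fin N) (Fin N × Fin N) (α i)) (inp : (i : R) → ℕ∞ → α i)
      (dec : (i : R) → α i → ℕ∞),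
        (∀ i, Fintype.card (α i) ≤ 2 ^ b ∧ (C i).TreewidthLE t ∧ (C i).reads ≤ r) →
        (∀ w : Fin N × Fin N → ℕ∞, Simple w →
          Nat.card R < 2 * Nat.card {i : R // NetNear (C i) (inp i) (dec i) w}) →
        N ^ 4 < c * ((r + N ^ 2) * (b * (t + 1) + Nat.log 2 N) * (Nat.log 2 N) ^ 10)) ∧
    (∃ c : ℕ, ∀ᶠ N : ℕ in Filter.atTop, ∀ (S T : ℕ)
      (R : Type) [Fintype R] (P : R → Prog (Fin N × Fin N) (Fin N × Fin N) ℕ∞),
        (∀ r, Fintype.card (P r).State ≤ 2 ^ S) →
        (∀ w : Fin N × Fin N → ℕ∞, Simple w →
          Nat.card R < 2 * Nat.card {r : R // ∃ d, (P r).Computes w d T ∧ Near w d}) →
        N ^ 4 < c * (T * S * (Nat.log 2 N) ^ 10)) :=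
  ⟨apsp_circuits, St.apsp_main⟩

end Pool.Agent.Results.MP_885423_lc.ApproximateUndirected
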