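import Pool.Agent.R617.FDA.Dist

/-!
# All-pairs shortest paths: circuits of small formal degree

The input is a complete digraph on `N` vertices whose arcs have weights in `{1, 2, 3, 4}`; the bits
`(x, y, 0)` and `(x, y, 1)` are the binary representation of the weight of the arc from `x` to `y`
minus one. The distance from `s` to `t ≠ s` is in `{1, 2, 3, 4}`, so `4 ≤ d(s, t)` is the bit of
weight four of the distance.

Circuits have literals of the input bits, conjunctions of two gates, and disjunctions of any set of
gates. The formal degree of a gate in an input bit is `1` for a literal of this bit, it is added at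
conjunctions, and the maximum is taken at disjunctions: it is the number of times the bit is read in
a proof tree of the gate. So circuits of polynomial size are nondeterministic programs with a stack
and with logarithmic memory, and the formal degree bounds how often they read the bit.

1. Let `s ≠ t`. If circuits compute (nondeterministically, and even with small probability) whether
`d(s, t) ≥ 4`, and if the formal degrees in the bits of the arcs which leave `s` or enter `t` sum up
to at most `k N`, so that these bits are read `O(k)` times on the average, then the circuits have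
size `2 ^ (Ω_k(N))`. The bits of all the other arcs may be read any number of times.
2. If one circuit computes for all pairs `s ≠ t` whether `d(s, t) ≥ 4`, and if the sum over all pairs
`(s, t)` of the formal degrees of the output `(s, t)` in the bits of the arcs which leave `s` or
enter `t` is at most `k N ^ 3`, then the circuit has size `2 ^ (Ω_k(N))`.

The proof uses the theorem on circuits of small formal degree of the starting files
(`Pool.Agent.W896.FD`), applied to digraphs with arcs of weight one from `s` to vertices `a_v`, from
`a_v` to `b_w` for a matching of the positions, and from `b_w` to `t`.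
-/

set_option autoImplicit false

namespace Pool.Agent.Results.MP_885423_lc.FormalDegree

open Pool.Agent.W896.RK Pool.Agent.R617.FDA

/-- **Distances and circuits of small formal degree.** `wt β x y` is the weight of the arc from `x`
to `y`, `dist (wt β) s t` is the distance from `s` to `t`, `IsDeg U id d` says that `d` bounds the
formal degrees of the gates of `U` in all input bits. -/
theorem result :
    (∀ (k N : ℕ) (s t : Fin N), s ≠ t → ∀ (R : Type) [Fintype R] [Nonempty R]
      (U : R → Circ (Bits N)),
      (∀ r β, (U r).Val β (U r).out → 4 ≤ dist (wt β) s t) →
      (∀ β : Bits N → Bool, 4 ≤ dist (wt β) s t →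
        Nat.card R ≤ 2 ^ (N / 2 ^ (300 * (k + 1))) * Nat.card {r // (U r).Val β (U r).out}) →
      (∀ r, ∃ d : (U r).G → Bits N → ℕ, IsDeg (U r) id d ∧
        ∑ x, ∑ j, (d (U r).out (s, x, j) + d (U r).out (x, t, j)) ≤ k * N) →
      ∃ r, N ≤ 2 ^ (300 * (k + 1)) * (Nat.log 2 (Fintype.card (U r).G) + 1)) ∧
    (∀ (k N : ℕ), 2 ≤ N → ∀ (U : Circ (Bits N)) (o : Fin N → Fin N → U.G),
      (∀ (β : Bits N → Bool) (s t : Fin N), s ≠ t →
        (U.Val β (o s t) ↔ 4 ≤ dist (wt β) s t)) →
      (∃ d : U.G → Bits N → ℕ, IsDeg U id d ∧
        ∑ s, ∑ t, ∑ x, ∑ j, (d (o s t) (s, x, j) + d (o s t) (x, t, j)) ≤ k * N ^ 3) →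
      N ≤ 2 ^ (600 * (k + 1)) * (Nat.log 2 (Fintype.card U.G) + 1)) :=
  ⟨fun k N _ _ hst R _ _ U hU hc hd => pair k N hst R U hU hc hd,
    fun k N hN U o hU hd => all k N hN U o hU hd⟩

end Pool.Agent.Results.MP_885423_lc.FormalDegree
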