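import Pool.Agent.R572.SH.Main

/-!
# APSP: nondeterministic machines with slow heads which verify that each edge is a shortest path

The input is the matrix of weights of a complete directed graph with `N` vertices and weights
`1`, `2`, `3`, written row by row (with `0` on the diagonal); a head reads a whole weight in one
step.  Nonuniform nondeterministic programs with `k` two-way heads, which move by at most one
position in a step, with at most `2 ^ S` configurations, which accept the matrices in which each
edge is a shortest path (so the matrix is its own distance matrix; equivalently the triangle
inequality holds) within `T` steps and never accept another matrix of weights, satisfy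
`k (S + 1) (T + N) ≥ N ^ 3 / (2 * 10 ^ 5)`.  So with a bounded number of heads and with space
`N ^ o(1)` they need time `N ^ (3 - o(1))`.

Proof. Let `m = N / 3`.  The edge from `i < m` to `2 m + i` has weight `3`, the edge from `i < m` to
`m + j` has weight `1` if `σ i j = 1`, the edge from `m + j` to `2 m + i` has weight `1` if
`σ i j = 2`, all other edges have weight `2`.  So no path is shorter than an edge; it would be
if both edges had weight `1`.  A row is a zone of `N` positions.  A computation is cut to windows of
`N` steps, in each window only `3 k` zones are touched.  For most `σ` and most pairs `(i, j)` with
`σ i j = 0`, the zones of `i` and `j` are touched in few windows, never in the same window, and for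
both zones the configurations at the borders of these windows are those of accepted inputs which
have `1` (or `2`) at `(i, j)` and are changed only in this zone.  Then the two changes can be combined,
and the combined input is accepted, but one path is shorter than an edge.
-/

set_option autoImplicit false

namespace Pool.Agent.Results.MP_885423_lc.NondeterministicSlowHeads

open Pool.Agent.TH457.HT Pool.Agent.R572.SH

/-- Let `P` be a nondeterministic program with `k ≥ 1` two-way heads for words of length `N * N` and
with at most `2 ^ S` configurations.  If for each matrix `w` of weights `1`, `2`, `3` of the complete
directed graph on `N` vertices (`0` on the diagonal) in which each edge is a shortest path,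
the word of the rows of `w` is accepted by some computation of at most `T` steps, and if the word of no
other matrix of weights `1`, `2`, `3` is accepted by any computation, then
`N ^ 3 ≤ 2 * 10 ^ 5 * k * (S + 1) * (T + N)`. -/
theorem result (N k T S : ℕ) (P : HeadProg ℕ (N * N) k) (hk : 1 ≤ k)
    (hS : Fintype.card P.Q * (N * N) ^ k ≤ 2 ^ S)
    (hacc : ∀ w : Fin N → Fin N → ℕ, IsWeights w → AllShortest w → P.AcceptsIn T (rowWord w))
    (hsound : ∀ w : Fin N → Fin N → ℕ, IsWeights w → ¬ AllShortest w →
      ¬ P.Accepts (rowWord w)) :
    N ^ 3 ≤ 2 * 10 ^ 5 * (k * (S + 1) * (T + N)) :=
  thmA N k T S P hk hS hacc hsound

end Pool.Agent.Results.MP_885423_lc.NondeterministicSlowHeads
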