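import Pool.Agent.R572.SH.Main

/-!
# APSP: zero-error randomized machines with slow heads

The input is the matrix of weights of a complete directed graph with `N` vertices and weights
`1`, `2`, `3`, written row by row (with `0` on the diagonal); a head reads a whole weight in one
step.  Randomized nonuniform programs with `k` two-way heads, which move by at most one position
in a step, with at most `2 ^ S` configurations, which always decide correctly whether each edge is
a shortest path (that is, whether the matrix is its own distance matrix), in an expected number of
at most `T` steps, satisfy `k (S + 1) (64 T + N) ≥ N ^ 3 / (2 * 10 ^ 5)`.  So with a bounded number of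
heads and with space `N ^ o(1)` they need expected time `N ^ (3 - o(1))`.

Proof. By averaging, some of the deterministic programs takes at most `64 T` steps for `63 / 64` of
the inputs of the family `σ` of the file `NondeterministicSlowHeads`; the proof for nondeterministic
programs works for these inputs, since all inputs are answered correctly, if late.
-/

set_option autoImplicit false

namespace Pool.Agent.Results.MP_885423_lc.SlowHeads

open Pool.Agent.TH457.HT Pool.Agent.R572.SH

open Classical in
/-- Let `p`, `P` be a random program with `k ≥ 1` two-way heads for words of length `N * N` and with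
at most `2 ^ S` configurations.  If for each matrix of weights `1`, `2`, `3` of the complete directed
graph on `N` vertices (`0` on the diagonal) it always gives the right answer to the question
whether each edge is a shortest path, and if the expected number of steps is at most `T`, then
`N ^ 3 ≤ 2 * 10 ^ 5 * k * (S + 1) * (64 * T + N)`. -/
theorem result (N k T S : ℕ) (Ω : Type) [Fintype Ω] (p : Ω → ℝ)
    (P : Ω → DetProg ℕ (N * N) k) (hp : ∀ ω, 0 ≤ p ω) (hp1 : ∑ ω, p ω = 1) (hk : 1 ≤ k)
    (hS : ∀ ω, Fintype.card (P ω).Q * (N * N) ^ k ≤ 2 ^ S)
    (h : ∀ w : Fin N → Fin N → ℕ, IsWeights w →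
      ∃ τ : Ω → ℕ, (∀ ω, (P ω).Answers (τ ω) (rowWord w) (decide (AllShortest w))) ∧
        ∑ ω, p ω * τ ω ≤ T) :
    N ^ 3 ≤ 2 * 10 ^ 5 * (k * (S + 1) * (64 * T + N)) :=
  thmB N k T S Ω p P hp hp1 hk hS h

end Pool.Agent.Results.MP_885423_lc.SlowHeads
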